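import Pool.Agent.Helper68.DS.Goals

set_option autoImplicit false

/-!
# Common walls
-/

namespace Pool.Agent.Helper11.DS

open MvPolynomial Pool.Agent.Helper68.DS

theorem prod_uval (U : ℕ → ℕ) (μ : ℕ → ℂ) (a b : ℕ) (y : ℂ) :
    ∏ m ∈ Finset.Ico a b, uval U μ m y =
      (∏ m ∈ Finset.Ico a b, vval U μ m y) * y ^ freeCount U a b := by
  have h1 : ∀ m, uval U μ m y = vval U μ m y * (if U m = 0 then y else 1) := by
    intro m
    unfold uval vval
    split_ifs <;> ring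
  rw [Finset.prod_congr rfl fun m _ => h1 m, Finset.prod_mul_distrib, Finset.prod_ite,
    Finset.prod_const, Finset.prod_const_one, mul_one]
  rfl

theorem prod_vval_zero {U : ℕ → ℕ} {μ : ℕ → ℂ} {a b l : ℕ} (hl : 1 ≤ l)
    (h : l ∈ blocked U a b) : ∏ m ∈ Finset.Ico a b, vval U μ m (μ l) = 0 := by
  obtain ⟨m, hm, hml⟩ := Finset.mem_image.1 h
  refine Finset.prod_eq_zero hm ?_
  unfold vval
  rw [if_neg (by omega), hml, sub_self]

theorem prod_vval_ne {U : ℕ → ℕ} {μ : ℕ → ℂ} {a b i : ℕ} (hi : 1 ≤ i)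
    (hμ : ∀ l, 1 ≤ l → μ i = μ l → i = l)
    (h : i ∉ blocked U a b) : ∏ m ∈ Finset.Ico a b, vval U μ m (μ i) ≠ 0 := by
  rw [Finset.prod_ne_zero_iff]
  intro m hm
  unfold vval
  split_ifs with h0
  · exact one_ne_zero
  · intro h1
    have h2 := hμ (U m) (by omega) (sub_eq_zero.1 h1)
    apply h
    rw [h2]
    exact Finset.mem_image_of_mem U hm

/-- Interpolation by `(α y + β) y^e + (γ y + δ)` at positive points, four points. -/
theorem interp_four (hD : DESC_stmt) {e : ℕ} (he : 2 ≤ e) {ν : ℕ → ℝ}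
    (hpos : ∀ i, 1 ≤ i → 0 < ν i) (hinj : ∀ l l', 1 ≤ l → 1 ≤ l' → ν l = ν l' → l = l')
    {T : Finset ℕ} (hT1 : ∀ l ∈ T, 1 ≤ l) {i : ℕ} (hi : 1 ≤ i) (hiT : i ∉ T)
    (hcard : T.card < 4) : ∃ α β γ δ : ℂ,
      (∀ l ∈ T, (α * (ν l : ℂ) + β) * (ν l : ℂ) ^ e + (γ * (ν l : ℂ) + δ) = 0) ∧
      (α * (ν i : ℂ) + β) * (ν i : ℂ) ^ e + (γ * (ν i : ℂ) + δ) ≠ 0 := by
  classical
  -- a set of four labels
  obtain ⟨N, hN⟩ : ∃ N : ℕ, ∀ l ∈ insert i T, l < N := by
    refine ⟨(insert i T).sup id + 1, fun l hl => ?_⟩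
    have : l ≤ (insert i T).sup id := Finset.le_sup (f := id) hl
    omega
  have hsub : insert i T ⊆ Finset.Ico 1 (N + 4) := by
    intro l hl
    have h1 := hN l hl
    rw [Finset.mem_Ico]
    rcases Finset.mem_insert.1 hl with h | h
    · subst h
      omega
    · have := hT1 l h
      omega
  obtain ⟨S, hS1, hS2, hS3⟩ := Finset.exists_subsuperset_card_eq (n := 4) hsub
    (by rw [Finset.card_insert_of_notMem hiT]; omega)
    (by rw [Nat.card_Ico]; have := hN i (Finset.mem_insert_self _ _); omega)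
  have hS4 : ∀ l ∈ S, 1 ≤ l := fun l hl => (Finset.mem_Ico.1 (hS2 hl)).1
  let φ : Fin 4 ≃ S := (S.equivFinOfCardEq hS3).symm
  let y : Fin 4 → ℝ := fun r => ν (φ r)
  have hyinj : Function.Injective y := by
    intro r r' h
    have := hinj _ _ (hS4 _ (φ r).2) (hS4 _ (φ r').2) h
    exact φ.injective (Subtype.ext this)
  have hypos : ∀ r, 0 < y r := fun r => hpos _ (hS4 _ (φ r).2)
  let L : (Fin 4 → ℂ) →ₗ[ℂ] (Fin 4 → ℂ) :=
    { toFun := fun c r => c 0 + c 1 * (y r : ℂ) + c 2 * (y r : ℂ) ^ e + c 3 * (y r : ℂ) ^ (e + 1)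
      map_add' := by
        intro c c'
        funext r
        simp only [Pi.add_apply]
        ring
      map_smul' := by
        intro z c
        funext r
        simp only [Pi.smul_apply, smul_eq_mul, RingHom.id_apply]
        ring }
  have hLinj : Function.Injective L := by
    rw [← LinearMap.ker_eq_bot, LinearMap.ker_eq_bot']
    intro c hc
    exact hD e he c y hyinj hypos fun r => congrFun hc r
  have hLsurj : Function.Surjective L := LinearMap.injective_iff_surjective.1 hLinj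
  have hiS : i ∈ S := hS1 (Finset.mem_insert_self _ _)
  obtain ⟨c, hc⟩ := hLsurj (Pi.single (φ.symm ⟨i, hiS⟩) 1)
  have hval : ∀ l (hl : l ∈ S), (c 3 * (ν l : ℂ) + c 2) * (ν l : ℂ) ^ e + (c 1 * (ν l : ℂ) + c 0) =
      (Pi.single (φ.symm ⟨i, hiS⟩) 1 : Fin 4 → ℂ) (φ.symm ⟨l, hl⟩) := by
    intro l hl
    rw [← hc]
    show _ = c 0 + c 1 * (y (φ.symm ⟨l, hl⟩) : ℂ) + c 2 * (y (φ.symm ⟨l, hl⟩) : ℂ) ^ e +
      c 3 * (y (φ.symm ⟨l, hl⟩) : ℂ) ^ (e + 1)
    have hy : y (φ.symm ⟨l, hl⟩) = ν l := by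
      show ν (φ (φ.symm ⟨l, hl⟩)) = ν l
      rw [Equiv.apply_symm_apply]
    rw [hy]
    ring
  refine ⟨c 3, c 2, c 1, c 0, ?_, ?_⟩
  · intro l hl
    have hlS : l ∈ S := hS1 (Finset.mem_insert_of_mem hl)
    rw [hval l hlS, Pi.single_eq_of_ne]
    intro h
    have h2 : (⟨l, hlS⟩ : S) = ⟨i, hiS⟩ := φ.symm.injective h
    have h3 : l = i := congrArg Subtype.val h2
    exact hiT (h3 ▸ hl)
  · rw [hval i hiS, Pi.single_eq_same]
    exact one_ne_zero

/-- Interpolation by `(α y + β) y^e + (γ y + δ)` at positive points. -/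
theorem interp (hD : DESC_stmt) {e : ℕ} {ν : ℕ → ℝ}
    (hpos : ∀ i, 1 ≤ i → 0 < ν i) (hinj : ∀ l l', 1 ≤ l → 1 ≤ l' → ν l = ν l' → l = l')
    {T : Finset ℕ} (hT1 : ∀ l ∈ T, 1 ≤ l) {i : ℕ} (hi : 1 ≤ i) (hiT : i ∉ T)
    (hcard : T.card < min 4 (e + 2)) : ∃ α β γ δ : ℂ,
      (∀ l ∈ T, (α * (ν l : ℂ) + β) * (ν l : ℂ) ^ e + (γ * (ν l : ℂ) + δ) = 0) ∧
      (α * (ν i : ℂ) + β) * (ν i : ℂ) ^ e + (γ * (ν i : ℂ) + δ) ≠ 0 := by
  classical
  rcases Nat.lt_or_ge e 2 with he | he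
  swap
  · exact interp_four hD he hpos hinj hT1 hi hiT (by omega)
  have hne : ∀ l ∈ T, (ν i : ℂ) - (ν l : ℂ) ≠ 0 := by
    intro l hl h
    have h1 : ν i = ν l := by exact_mod_cast sub_eq_zero.1 h
    have h2 := hinj i l hi (hT1 l hl) h1
    exact hiT (h2 ▸ hl)
  rcases Nat.eq_zero_or_pos T.card with h0 | h0
  · rw [Finset.card_eq_zero] at h0
    subst h0
    refine ⟨0, 0, 0, 1, fun l hl => absurd hl (Finset.notMem_empty l), ?_⟩
    simp
  rcases Nat.lt_or_ge T.card 2 with h1 | h1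
  · obtain ⟨p, rfl⟩ := Finset.card_eq_one.1 (show T.card = 1 by omega)
    refine ⟨0, 0, 1, -(ν p : ℂ), fun l hl => ?_, ?_⟩
    · rw [Finset.mem_singleton.1 hl]
      ring
    · have := hne p (Finset.mem_singleton_self p)
      intro h
      apply this
      rw [← h]
      ring
  · have he1 : e = 1 := by omega
    have h2 : T.card = 2 := by omega
    obtain ⟨p, q, _, rfl⟩ := Finset.card_eq_two.1 h2
    subst he1
    refine ⟨1, -((ν p : ℂ) + ν q), 0, (ν p : ℂ) * ν q, fun l hl => ?_, ?_⟩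
    · rcases Finset.mem_insert.1 hl with h | h
      · rw [h]
        ring
      · rw [Finset.mem_singleton.1 h]
        ring
    · have hp := hne p (by simp)
      have hq := hne q (by simp)
      intro h
      apply mul_ne_zero hp hq
      rw [← h]
      ring

/-- Common walls. -/
theorem COMMON (h1 : DESC_stmt) : COMMON_stmt := by
  intro U ν hpos hinj a b i _ hJ
  obtain ⟨hi, hib, hcard⟩ := hJ
  set μ : ℕ → ℂ := fun i => (ν i : ℂ) with hμ
  set T := (Finset.Ico 1 i).filter fun l => l ∉ blocked U a b with hT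
  obtain ⟨α, β, γ, δ, hz, hn⟩ := interp (T := T) h1 hpos hinj
    (fun l hl => (Finset.mem_Ico.1 (Finset.mem_filter.1 hl).1).1) hi
    (fun h => absurd (Finset.mem_Ico.1 (Finset.mem_filter.1 h).1).2 (lt_irrefl _)) hcard
  have key : ∀ l, (α * μ l + β) * (∏ m ∈ Finset.Ico a b, uval U μ m (μ l)) +
      (γ * μ l + δ) * (∏ m ∈ Finset.Ico a b, vval U μ m (μ l)) =
      (∏ m ∈ Finset.Ico a b, vval U μ m (μ l)) *
        ((α * (ν l : ℂ) + β) * (ν l : ℂ) ^ freeCount U a b + (γ * (ν l : ℂ) + δ)) := by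
    intro l
    rw [prod_uval]
    simp only [hμ]
    ring
  refine ⟨α, β, γ, δ, fun l hl1 hl2 => ?_, ?_⟩
  · rw [key]
    by_cases hlb : l ∈ blocked U a b
    · rw [prod_vval_zero hl1 hlb, zero_mul]
    · rw [hz l (by rw [hT, Finset.mem_filter, Finset.mem_Ico]; exact ⟨⟨hl1, hl2⟩, hlb⟩), mul_zero]
  · rw [key]
    refine mul_ne_zero (prod_vval_ne hi ?_ hib) hn
    intro l hl h
    refine hinj i l hi hl ?_
    have : (ν i : ℂ) = (ν l : ℂ) := h
    exact_mod_cast this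

end Pool.Agent.Helper11.DS
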