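import Pool.Agent.Helper68.DS.Goals

set_option autoImplicit false

/-!
# Linear independence of the windows after restriction to a plane
-/

namespace Pool.Agent.Helper11.DS

open MvPolynomial Pool.Agent.Helper68.DS

/-- Triangularity of the values of the windows of a fixed length. -/
theorem core {k : ℕ} {κ : Fin k → ℂ} (hκ : Function.Injective κ) {P : Fin k × Fin k → Prop}
    [DecidablePred P] (hP : ∀ p, P p → p.1 ≤ p.2) (g : {p : Fin k × Fin k // P p} → ℂ)
    (h : ∀ (r : Fin k) (n : ℕ), ∑ p : {p : Fin k × Fin k // P p},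
      (if (p.1.2 : ℕ) - p.1.1 + 1 = n then
        g p * ∏ l ∈ Finset.univ.filter (fun l => l < p.1.1 ∨ p.1.2 < l), (κ r - κ l) else 0) = 0)
    (p : {p : Fin k × Fin k // P p}) : g p = 0 := by
  suffices H : ∀ (N : ℕ) (p : {p : Fin k × Fin k // P p}), (p.1.1 : ℕ) = N → g p = 0 from
    H _ p rfl
  intro N
  induction N using Nat.strong_induction_on with
  | _ N ih =>
    intro p hp
    have h1 := h p.1.1 ((p.1.2 : ℕ) - p.1.1 + 1)
    rw [Finset.sum_eq_single p] at h1
    · rw [if_pos rfl] at h1
      rcases mul_eq_zero.1 h1 with h2 | h2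
      · exact h2
      · exfalso
        obtain ⟨l, hl, hl2⟩ := Finset.prod_eq_zero_iff.1 h2
        rw [Finset.mem_filter] at hl
        have hle := hP _ p.2
        have e : p.1.1 = l := hκ (sub_eq_zero.1 hl2)
        rcases hl.2 with h3 | h3
        · rw [e] at h3
          exact lt_irrefl _ h3
        · rw [← e] at h3
          exact absurd h3 (not_lt.2 hle)
    · intro q _ hq
      by_cases hlen : (q.1.2 : ℕ) - q.1.1 + 1 = (p.1.2 : ℕ) - p.1.1 + 1
      · rw [if_pos hlen]
        rcases lt_trichotomy (q.1.1 : ℕ) p.1.1 with h3 | h3 | h3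
        · rw [ih _ (by omega) q rfl, zero_mul]
        · exfalso
          apply hq
          have hq1 : (q.1.1 : ℕ) ≤ q.1.2 := hP _ q.2
          have hp1 : (p.1.1 : ℕ) ≤ p.1.2 := hP _ p.2
          apply Subtype.ext
          apply Prod.ext
          · exact Fin.ext h3
          · apply Fin.ext
            omega
        · have : ∏ l ∈ Finset.univ.filter (fun l => l < q.1.1 ∨ q.1.2 < l),
              (κ p.1.1 - κ l) = 0 := by
            refine Finset.prod_eq_zero (i := p.1.1) ?_ (sub_self _)
            rw [Finset.mem_filter]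
            exact ⟨Finset.mem_univ _, Or.inl h3⟩
          rw [this, mul_zero]
      · rw [if_neg hlen]
    · intro h2
      exact absurd (Finset.mem_univ _) h2

/-- Evaluation at `x_1 = κ`, `x_2 = 1`. -/
noncomputable def ph (z : ℂ) : MvPolynomial (Fin 3) ℂ →ₐ[ℂ] Polynomial ℂ :=
  aeval ![Polynomial.X, Polynomial.C z, 1]

theorem ph_X0 (z : ℂ) : ph z (X 0) = Polynomial.X := by
  simp [ph]

theorem ph_X1 (z : ℂ) : ph z (X 1) = Polynomial.C z := by
  simp [ph]

theorem ph_X2 (z : ℂ) : ph z (X 2) = 1 := by
  simp [ph]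

theorem ph_C (z c : ℂ) : ph z (C c) = Polynomial.C c := by
  simp [ph, Polynomial.algebraMap_eq]

theorem ph_win {k : ℕ} (κ : Fin k → ℂ) (z : ℂ) (e : ℕ) (s : Finset (Fin k)) :
    ph z (X 0 ^ e * ∏ l ∈ s, (X 1 - C (κ l) * X 2)) =
      Polynomial.C (∏ l ∈ s, (z - κ l)) * Polynomial.X ^ e := by
  rw [map_mul, map_pow, ph_X0, map_prod, mul_comm]
  congr 1
  rw [map_prod]
  refine Finset.prod_congr rfl fun l _ => ?_
  rw [map_sub, map_mul, ph_X1, ph_C, ph_X2, mul_one, ← Polynomial.C_sub]

/-- Linear independence of the windows. -/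
theorem WLI : WLI_stmt := by
  intro k κ hκ
  constructor
  · intro d
    rw [Fintype.linearIndependent_iff]
    intro g hg
    refine core hκ (fun p hp => hp.1) g fun r n => ?_
    have h1 := congrArg (ph (κ r)) hg
    rw [map_sum, map_zero] at h1
    by_cases hn : d ≤ n
    · have h2 := congrArg (fun f => Polynomial.coeff f (n - d)) h1
      simp only [Polynomial.finset_sum_coeff, Polynomial.coeff_zero] at h2
      refine Eq.trans ?_ h2
      refine Finset.sum_congr rfl fun p _ => ?_
      rw [map_smul, Polynomial.coeff_smul, ph_win, Polynomial.coeff_C_mul_X_pow, smul_eq_mul]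
      have hd := p.2.2
      by_cases hpn : (p.1.2 : ℕ) - p.1.1 + 1 = n
      · rw [if_pos hpn, if_pos (by omega)]
      · rw [if_neg hpn, if_neg (by omega), mul_zero]
    · refine Finset.sum_eq_zero fun p _ => ?_
      have hd := p.2.2
      rw [if_neg (by omega)]
  · rw [Fintype.linearIndependent_iff]
    intro g hg
    rw [Fintype.sum_sum_type] at hg
    simp only [Sum.elim_inl, Sum.elim_inr] at hg
    have hr : ∀ p, g (Sum.inr p) = 0 := by
      refine core hκ (fun p hp => hp) (fun p => g (Sum.inr p)) fun r n => ?_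
      by_cases hn : 1 ≤ n
      · have h1 := congrArg (ph (κ r)) hg
        rw [map_add, map_sum, map_sum, map_zero] at h1
        have h2 := congrArg (fun f => Polynomial.coeff f n) h1
        simp only [Polynomial.coeff_add, Polynomial.finset_sum_coeff,
          Polynomial.coeff_zero] at h2
        have h3 : ∑ x : Fin (k + 1), (ph (κ r) (g (Sum.inl x) •
            ((X 1 : MvPolynomial (Fin 3) ℂ) ^ (x : ℕ) * X 2 ^ (k - (x : ℕ))))).coeff n = 0 := by
          refine Finset.sum_eq_zero fun x _ => ?_
          rw [map_smul, Polynomial.coeff_smul, map_mul, map_pow, map_pow, ph_X1, ph_X2, one_pow,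
            mul_one, ← Polynomial.C_pow, Polynomial.coeff_C, if_neg (by omega), smul_zero]
        rw [h3, zero_add] at h2
        refine Eq.trans ?_ h2
        refine Finset.sum_congr rfl fun p _ => ?_
        rw [map_smul, Polynomial.coeff_smul, ph_win, Polynomial.coeff_C_mul_X_pow, smul_eq_mul]
        by_cases hpn : (p.1.2 : ℕ) - p.1.1 + 1 = n
        · rw [if_pos hpn, if_pos (by omega)]
        · rw [if_neg hpn, if_neg (by omega), mul_zero]
      · refine Finset.sum_eq_zero fun p _ => ?_
        rw [if_neg (by omega)]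
    have hl : ∀ j, g (Sum.inl j) = 0 := by
      have h0 : ∑ p : {p : Fin k × Fin k // p.1 ≤ p.2}, g (Sum.inr p) •
          ((X 0 : MvPolynomial (Fin 3) ℂ) ^ ((p.1.2 : ℕ) - p.1.1 + 1) *
            ∏ l ∈ Finset.univ.filter (fun l => l < p.1.1 ∨ p.1.2 < l),
              (X 1 - C (κ l) * X 2)) = 0 := by
        refine Finset.sum_eq_zero fun p _ => ?_
        rw [hr p, zero_smul]
      rw [h0, add_zero] at hg
      intro j
      have h1 := congrArg (aeval (![0, Polynomial.X, 1] : Fin 3 → Polynomial ℂ)) hg
      rw [map_sum, map_zero] at h1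
      have h2 := congrArg (fun f => Polynomial.coeff f (j : ℕ)) h1
      simp only [Polynomial.finset_sum_coeff, Polynomial.coeff_zero] at h2
      rw [Finset.sum_eq_single j] at h2
      · simpa [Polynomial.coeff_X_pow] using h2
      · intro i _ hij
        have : (j : ℕ) ≠ i := fun h => hij (Fin.ext h.symm)
        simp [Polynomial.coeff_X_pow, this]
      · intro h3
        exact absurd (Finset.mem_univ _) h3
    rintro (j | p)
    · exact hl j
    · exact hr p

end Pool.Agent.Helper11.DS
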